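import Pool.Agent.W902.WD.LocC

/-!
# WILD-LOC: the normal form on charts
-/

set_option autoImplicit false
set_option linter.unusedVariables false
set_option linter.unusedSectionVars false

universe u

open Polynomial

namespace Pool.Agent.W902.WD

open Pool.Agent.W558

section

variable {k E : Type u} [Field k] [Field E] [Algebra k E]

lemma fr_adj {A : Subalgebra k E} {g : E} (hg : g ∈ A) (hg0 : g ≠ 0) : Fr A (adj A g⁻¹) := by
  refine ⟨le_adj _ _, fun x hx => ?_⟩
  obtain ⟨n, hn⟩ := (mem_adj_inv hg hg0).1 hx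
  refine ⟨x * g ^ n, hn, g ^ n, A.pow_mem hg n, pow_ne_zero n hg0, ?_, ?_⟩
  · rw [← inv_pow]
    exact (adj A g⁻¹).pow_mem (self_mem_adj _ _) n
  · have := pow_ne_zero n hg0
    field_simp

/-- the normal form on a chart -/
structure NF (p : ℕ) (B : Subalgebra k E) {I : Type} [Fintype I] (x : I → E) (n : I → ℤ) (f a h : E)
    (θ : Derivation k E E) : Prop where
  hB : h ∈ B
  eq : f = a ^ p + (∏ i, x i ^ n i) * h
  th : θ ∈ ThW B x
  un : θ f * ∏ i, x i ^ (-n i) ∈ B
  ui : (θ f * ∏ i, x i ^ (-n i))⁻¹ ∈ B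
  u0 : θ f * ∏ i, x i ^ (-n i) ≠ 0

lemma NF.up {p : ℕ} {A B : Subalgebra k E} {I : Type} [Fintype I] {x : I → E} {n : I → ℤ}
    {f a h : E} {θ : Derivation k E E} (H : NF p A x n f a h θ) (hAB : Fr A B) :
    NF p B x n f a h θ :=
  ⟨hAB.1 H.hB, H.eq, ThW.mono hAB le_rfl hAB.1 H.th, hAB.1 H.un, hAB.1 H.ui, H.u0⟩

/-- the logarithmic form has no zeros -/
lemma NF.ln {p : ℕ} [CharP E p] {B : Subalgebra k E} {I : Type} [Fintype I] {x : I → E}
    (hx0 : ∀ i, x i ≠ 0) {n : I → ℤ} {f a h : E} {θ : Derivation k E E}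
    (H : NF p B x n f a h θ) (hh : h ∈ B) (κ : Type u) [Field κ] [Algebra k κ] (φ : B →ₐ[k] κ) :
    ∃ v : LT φ x, om v n hh ≠ 0 := by
  choose w hw hwx using H.th.2
  let D : TV φ :=
    { D := { toFun := fun b => φ ⟨θ b, H.th.1 b b.2⟩
             map_add' := by
              intro b c
              rw [← map_add]
              congr 1
              apply Subtype.ext
              change θ ((b : E) + c) = θ b + θ c
              rw [map_add]
             map_smul' := by
              intro r b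
              rw [RingHom.id_apply, ← map_smul]
              congr 1
              apply Subtype.ext
              change θ (r • (b : E)) = r • θ b
              rw [Derivation.map_smul] }
      leib := by
        intro b c
        change φ ⟨θ ((b * c : B) : E), _⟩ = φ b * φ ⟨θ c, _⟩ + φ c * φ ⟨θ b, _⟩
        rw [← map_mul, ← map_mul, ← map_add]
        congr 1
        apply Subtype.ext
        change θ ((b : E) * c) = b * θ c + c * θ b
        rw [Derivation.leibniz]
        rfl }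
  let v : LT φ x :=
    { D := D
      e := fun i => φ ⟨w i, hw i⟩
      hx := by
        intro i hi
        change φ ⟨θ (x i), _⟩ = φ ⟨x i, hi⟩ * φ ⟨w i, hw i⟩
        rw [← map_mul]
        congr 1
        apply Subtype.ext
        change θ (x i) = x i * w i
        rw [hwx, mul_comm] }
  refine ⟨v, ?_⟩
  have hz : θ h + h * ∑ i, (n i : E) * w i = θ f * ∏ i, x i ^ (-n i) := by
    have h1 : θ f = (∏ i, x i ^ n i) * (θ h + h * ∑ i, (n i : E) * w i) := by
      have h2 : θ (a ^ p) = 0 := by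
        rw [Derivation.leibniz_pow, nsmul_eq_mul, CharP.cast_eq_zero, zero_mul]
      conv_lhs => rw [H.eq]
      rw [map_add, h2, Derivation.leibniz, log_mono θ hx0 hwx n]
      simp only [smul_eq_mul]
      ring
    rw [h1]
    have h3 := mono_mul hx0 n
    linear_combination (-(θ h + h * ∑ i, (n i : E) * w i)) * h3
  have hs : (∑ i, (n i : B) * (⟨w i, hw i⟩ : B) : B) = ∑ i, (n i : B) * (⟨w i, hw i⟩ : B) := rfl
  have hz' : om v n hh = φ ⟨θ f * ∏ i, x i ^ (-n i), H.un⟩ := by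
    have e1 : (⟨θ f * ∏ i, x i ^ (-n i), H.un⟩ : B) =
        ⟨θ h, H.th.1 h hh⟩ + ⟨h, hh⟩ * ∑ i, (n i : B) * (⟨w i, hw i⟩ : B) := by
      apply Subtype.ext
      rw [Subalgebra.coe_add, Subalgebra.coe_mul, AddSubmonoidClass.coe_finsetSum]
      change θ f * ∏ i, x i ^ (-n i) = θ h + h * ∑ i, (((n i : B) * (⟨w i, hw i⟩ : B) : B) : E)
      rw [← hz]
      congr 2
    rw [e1, map_add, map_mul, map_sum]
    change φ ⟨θ h, _⟩ + φ ⟨h, hh⟩ * ∑ i, (n i : κ) * φ ⟨w i, hw i⟩ = _
    congr 2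
    refine Finset.sum_congr rfl fun i _ => ?_
    rw [map_mul, map_intCast]
  rw [hz']
  intro h0
  have h1 : (⟨θ f * ∏ i, x i ^ (-n i), H.un⟩ : B) * ⟨_, H.ui⟩ = 1 :=
    Subtype.ext (mul_inv_cancel₀ H.u0)
  have h2 := congrArg φ h1
  rw [map_mul, h0, zero_mul, map_one] at h2
  exact zero_ne_one h2

/-- spreading out -/
lemma spread_nf {p : ℕ} {A O : Subalgebra k E} [Algebra.FiniteType k A] (hO : Fr A O) {I : Type}
    [Fintype I] {x : I → E} {n : I → ℤ} {f a h : E} {θ : Derivation k E E} (hθ : θ ∈ ThW O x)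
    (hθ0 : θ f ≠ 0) (hx0 : ∀ i, x i ≠ 0)
    (hh : h ∈ O) (heq : f = a ^ p + (∏ i, x i ^ n i) * h)
    (hu : θ f * ∏ i, x i ^ (-n i) ∈ O) (hui : (θ f * ∏ i, x i ^ (-n i))⁻¹ ∈ O) :
    ∃ g ∈ A, g ≠ 0 ∧ g⁻¹ ∈ O ∧ ∃ θ', NF p (adj A g⁻¹) x n f a h θ' := by
  obtain ⟨e, he, he0, hei, h1⟩ := spread hO hθ
  set v := θ f * ∏ i, x i ^ (-n i) with hv
  have hv0 : v ≠ 0 := mul_ne_zero hθ0
    (Finset.prod_ne_zero_iff.2 fun i _ => zpow_ne_zero _ (hx0 i))
  have hev : (e • θ) f * ∏ i, x i ^ (-n i) = e * v := by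
    change e • θ f * _ = _
    rw [smul_eq_mul, hv, mul_assoc]
  obtain ⟨g, hg, hg0, hgi, hgs⟩ := hO.den (Finset.univ : Finset (Fin 3)) ![h, e * v, (e * v)⁻¹] (by
    intro i _
    fin_cases i
    · exact hh
    · exact O.mul_mem (hO.1 he) hu
    · change (e * v)⁻¹ ∈ O
      rw [mul_inv]
      exact O.mul_mem hei hui)
  have hmem : ∀ z, g * z ∈ A → z ∈ adj A g⁻¹ := by
    intro z hz
    refine (mem_adj_inv hg hg0).2 ⟨1, ?_⟩
    rw [pow_one, mul_comm]
    exact hz
  refine ⟨g, hg, hg0, hgi, e • θ, hmem _ (hgs 0 (Finset.mem_univ _)), heq,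
    ThW.mono (fr_adj hg hg0) le_rfl (le_adj _ _) h1, ?_, ?_, ?_⟩
  · rw [hev]
    exact hmem _ (hgs 1 (Finset.mem_univ _))
  · rw [hev]
    exact hmem _ (hgs 2 (Finset.mem_univ _))
  · rw [hev]
    exact mul_ne_zero he0 hv0

/-- A family of functions generating the unit ideal. -/
lemma cover {A : Subalgebra k E} (S : Set A) (hS : Ideal.span S = ⊤) (V : ValuationSubring E)
    (hV : ∀ a ∈ A, a ∈ V) : ∃ g ∈ S, (g : E) ≠ 0 ∧ (g : E)⁻¹ ∈ V := by
  by_contra hcon
  push Not at hcon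
  let J : Ideal A :=
    { carrier := {a | V.valuation (a : E) < 1}
      add_mem' := fun {a b} ha hb => by
        change V.valuation ((a + b : A) : E) < 1
        rw [Subalgebra.coe_add]
        exact Valuation.map_add_lt _ ha hb
      zero_mem' := by
        change V.valuation ((0 : A) : E) < 1
        rw [Subalgebra.coe_zero, map_zero]
        exact zero_lt_one
      smul_mem' := fun c a ha => by
        change V.valuation ((c * a : A) : E) < 1
        rw [Subalgebra.coe_mul, map_mul]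
        exact (mul_le_of_le_one_left' ((V.valuation_le_one_iff _).2 (hV _ c.2))).trans_lt ha }
  have h1 : Ideal.span S ≤ J := by
    rw [Ideal.span_le]
    intro g hg
    change V.valuation (g : E) < 1
    by_cases h0 : (g : E) = 0
    · rw [h0, map_zero]
      exact zero_lt_one
    · have h3 := hcon g hg h0
      rw [← V.valuation_le_one_iff, map_inv₀, not_le] at h3
      have h4 : V.valuation (g : E) ≠ 0 := by
        rw [ne_eq, map_eq_zero]; exact h0
      exact (one_lt_inv₀ (zero_lt_iff.2 h4)).1 h3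
  rw [hS] at h1
  have h2 : (1 : A) ∈ J := h1 trivial
  change V.valuation ((1 : A) : E) < 1 at h2
  rw [Subalgebra.coe_one, map_one] at h2
  exact lt_irrefl _ h2

end

theorem main' (hder : WD_der.{u}) (hderp : WD_derp.{u}) (hker : WD_ker.{u}) (hty : WD_ty.{u}) :
    WD_loc.{u} := by
  classical
  intro p _ k E _ _ _ _ _ htr s G _ g Γ hFn f hCO hGd
  have hcharE : CharP E p := charP_of_injective_algebraMap (algebraMap k E).injective p
  have hgd : ∀ t O, IsPt (s.M.A t) O → ∃ θ, Good O (s.M.x t) f θ := fun t O hO =>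
    exists_good s.M hO.le (hGd t O hO)
  obtain ⟨n, hn⟩ := exists_n s f hgd
  -- the field is essentially of finite type
  have hess : Algebra.EssFiniteType k E := by
    obtain ⟨t, -⟩ := s.M.cv ⊤ fun a _ => ValuationSubring.mem_top a
    have hsm := (s.sf t).sm
    have hfr : IsFractionRing (s.M.A t) E := (s.sf t).isFractionRing
    have : Algebra.EssFiniteType (s.M.A t) E :=
      Algebra.EssFiniteType.of_isLocalization E (nonZeroDivisors (s.M.A t))
    exact Algebra.EssFiniteType.comp k (s.M.A t) E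
  -- good functions
  let P : ∀ t, Set (s.M.A t) := fun t => {g | (g : E) ≠ 0 ∧
    ∃ a h θ, NF p (adj (s.M.A t) (g : E)⁻¹) (s.M.x t) n f a h θ}
  have hP : ∀ t, Ideal.span (P t) = ⊤ := by
    intro t
    have hsm := (s.sf t).sm
    by_contra hne
    obtain ⟨m, hm, hle⟩ := Ideal.exists_le_maximal _ hne
    have hO := isPt_locAt (hq := hm.isPrime) hm
    set O := locAt (s.M.A t) m hm.isPrime with hOdef
    obtain ⟨θ, hθ⟩ := hgd t O hO
    obtain ⟨hu, hui⟩ := unit_pt all_par all_fin htr s f hCO n hn hO hθ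
    obtain ⟨a, h, hh, heq⟩ := local_nf hder hderp hker p htr ⟨s.M.A t, s.sf t, hO⟩
      (hty k E htr s t O hO) (s.M.x0 t) n (Th_iff s.M hO.le) hθ hu
    obtain ⟨g', hg', hg0, hgi, θ', hNF⟩ := spread_nf hO.fr' hθ.1 hθ.2.1 (s.M.x0 t) hh heq hu hui
    have h1 : (⟨g', hg'⟩ : s.M.A t) ∈ m :=
      hle (Ideal.subset_span ⟨hg0, a, h, θ', hNF⟩)
    have h2 : NU O g' := (NU_locAt (a := (⟨g', hg'⟩ : s.M.A t)) (hq := hm.isPrime)).2 h1
    exact not_NU_of_inv hg0 hgi h2
  have hfin : ∀ t, ∃ F : Finset (s.M.A t), (F : Set (s.M.A t)) ⊆ P t ∧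
      Ideal.span (F : Set (s.M.A t)) = ⊤ := fun t =>
    (Ideal.span_eq_top_iff_finite (P t)).1 (hP t)
  choose F hFP hFs using hfin
  have hFne : ∀ t, 0 < (F t).card := by
    intro t
    rw [Finset.card_pos]
    by_contra h
    rw [Finset.not_nonempty_iff_eq_empty] at h
    have h1 := hFs t
    rw [h, Finset.coe_empty, Ideal.span_empty] at h1
    exact bot_ne_top h1
  let J : Type := ∀ t, Fin (F t).card
  let hf : s.T → J → E := fun t b => (((F t).equivFin.symm (b t) : F t) : s.M.A t)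
  have hfmem : ∀ t b, hf t b ∈ s.M.A t := fun t b => (((F t).equivFin.symm (b t) : F t) : s.M.A t).2
  have hfP : ∀ t (b : J), (((F t).equivFin.symm (b t) : F t) : s.M.A t) ∈ P t := fun t b =>
    hFP t ((F t).equivFin.symm (b t)).2
  have hsurj : ∀ t (y : s.M.A t), y ∈ F t → ∃ b : J, hf t b = y := by
    intro t y hy
    let b : J := Function.update (fun t => ⟨0, hFne t⟩) t ((F t).equivFin ⟨y, hy⟩)
    have hb : b t = (F t).equivFin ⟨y, hy⟩ := Function.update_self _ _ _
    refine ⟨b, ?_⟩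
    change ((((F t).equivFin.symm (b t) : F t) : s.M.A t) : E) = y
    rw [hb, Equiv.symm_apply_apply]
  obtain ⟨M', hA, hx, N, hH⟩ := exists_refine s.M hf hfmem (fun t b => (hfP t b).1) (by
    intro t V hV
    obtain ⟨y, hy, hy0, hyi⟩ := cover (F t : Set (s.M.A t)) (hFs t) V hV
    obtain ⟨b, hb⟩ := hsurj t y hy
    exact ⟨b, by rw [hb]; exact hyi⟩)
  have hA' : ∀ q, M'.A q = adj (s.M.A q.1) (hf q.1 q.2)⁻¹ := fun q => by rw [hA]; rfl
  have hx' : ∀ q, M'.x q = s.M.x q.1 := fun q => by rw [hx]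
  choose a h θ hNF using fun q : s.T × J => (hfP q.1 q.2).2
  have hNF' : ∀ q, NF p (M'.A q) (M'.x q) n f (a q) (h q) (θ q) := by
    intro q
    rw [hA', hx']
    exact hNF q
  have hle : ∀ q, s.M.A q.1 ≤ M'.A q := fun q => by
    rw [hA']
    exact le_adj _ _
  refine ⟨s.T × J, s.I, inferInstance, inferInstance, M', Γ, n, a, h, ?_, ⟨?_, ?_, ?_⟩, ?_⟩
  · intro b q
    obtain ⟨w, hw0, hw, hwi, h1⟩ := hFn b q.1
    refine ⟨w, hw0, hle q hw, hle q hwi, ?_⟩
    rw [hx']
    exact h1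
  · exact fun q => (hNF' q).hB
  · exact fun q => (hNF' q).eq
  · intro q κ _ _ φ
    exact (hNF' q).ln (M'.x0 q) _ κ φ
  · intro q z
    obtain ⟨c, hc, d, hd, hd0, h1⟩ := (s.sf q.1).fr z
    exact ⟨c, hle q hc, d, hle q hd, hd0, h1⟩

theorem main (hder : WD_der.{u}) (hderp : WD_derp.{u}) (hker : WD_ker.{u}) (hty : WD_ty.{u})
    (_hfcs : WD_fcs.{u}) (_hthb : WD_thb.{u}) : WD_loc.{u} :=
  main' hder hderp hker hty

end Pool.Agent.W902.WD
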