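import Pool.Agent.W558.WD.Stms
import Pool.Agent.W558.S.All

/-!
# WILD-LOC, part A: logarithmic derivations at points and divisors
-/

set_option autoImplicit false
set_option linter.unusedVariables false
set_option linter.unusedSectionVars false

universe u

open Polynomial

namespace Pool.Agent.W902.WD

open Pool.Agent.W558

section basic

variable {k E : Type u} [Field k] [Field E] [Algebra k E]

/-- derivations that preserve the subalgebra and the divisors -/
def ThW (W : Subalgebra k E) {I : Type} (x : I → E) : Set (Derivation k E E) :=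
  {D | (∀ a ∈ W, D a ∈ W) ∧ ∀ i, ∃ w ∈ W, D (x i) = w * x i}

/-- `W` consists of fractions of elements of `A`. -/
def Fr (A W : Subalgebra k E) : Prop :=
  A ≤ W ∧ ∀ x ∈ W, ∃ a ∈ A, ∃ b ∈ A, b ≠ 0 ∧ b⁻¹ ∈ W ∧ x = a * b⁻¹

lemma _root_.Pool.Agent.W558.IsPt.fr' {A O : Subalgebra k E} (h : IsPt A O) : Fr A O :=
  ⟨h.le, h.frac⟩

lemma _root_.Pool.Agent.W558.IsDv.fr' {A W : Subalgebra k E} (h : IsDv A W) : Fr A W :=
  ⟨h.le, h.frac⟩

/-- common denominators -/
lemma Fr.den {A W : Subalgebra k E} (h : Fr A W) {ι : Type*} (s : Finset ι) (w : ι → E)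
    (hw : ∀ i ∈ s, w i ∈ W) : ∃ e ∈ A, e ≠ 0 ∧ e⁻¹ ∈ W ∧ ∀ i ∈ s, e * w i ∈ A := by
  classical
  induction s using Finset.induction_on with
  | empty => exact ⟨1, A.one_mem, one_ne_zero, by rw [inv_one]; exact W.one_mem, by simp⟩
  | insert i s his ih =>
    obtain ⟨e, he, he0, hei, hes⟩ := ih fun j hj => hw j (Finset.mem_insert_of_mem hj)
    obtain ⟨a, ha, b, hb, hb0, hbi, hab⟩ := h.2 (w i) (hw i (Finset.mem_insert_self i s))
    refine ⟨e * b, A.mul_mem he hb, mul_ne_zero he0 hb0, ?_, ?_⟩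
    · rw [mul_inv]
      exact W.mul_mem hei hbi
    · intro j hj
      rw [Finset.mem_insert] at hj
      rcases hj with rfl | hj
      · rw [hab]
        have e1 : e * b * (a * b⁻¹) = e * a := by field_simp
        rw [e1]
        exact A.mul_mem he ha
      · have e1 : e * b * w j = b * (e * w j) := by ring
        rw [e1]
        exact A.mul_mem hb (hes j hj)

/-- a multiple of a derivation of a local ring preserves the chart -/
lemma spread {A W : Subalgebra k E} [Algebra.FiniteType k A] (h : Fr A W) {I : Type} [Finite I]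
    {x : I → E} {θ : Derivation k E E} (hθ : θ ∈ ThW W x) :
    ∃ e ∈ A, e ≠ 0 ∧ e⁻¹ ∈ W ∧ e • θ ∈ ThW A x := by
  classical
  have := Fintype.ofFinite I
  obtain ⟨S, hS⟩ := (Algebra.FiniteType.out : (⊤ : Subalgebra k A).FG)
  choose w hw hwx using hθ.2
  obtain ⟨e1, he1, he10, he1i, hd1⟩ := h.den S (fun a : A => θ (a : E))
    (fun a _ => hθ.1 _ (h.1 a.2))
  obtain ⟨e2, he2, he20, he2i, hd2⟩ := h.den Finset.univ w (fun i _ => hw i)
  refine ⟨e1 * e2, A.mul_mem he1 he2, mul_ne_zero he10 he20, ?_, ?_, ?_⟩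
  · rw [mul_inv]
    exact W.mul_mem he1i he2i
  · have key : ∀ a ∈ Algebra.adjoin k (S : Set A), (e1 * e2) • θ (a : E) ∈ A := by
      intro a ha
      induction ha using Algebra.adjoin_induction with
      | mem a ha =>
        have h1 := hd1 a ha
        have e3 : (e1 * e2) • θ (a : E) = e2 * (e1 * θ (a : E)) := by
          rw [smul_eq_mul]; ring
        rw [e3]
        exact A.mul_mem he2 h1
      | algebraMap r =>
        have e3 : θ ((algebraMap k A r : A) : E) = 0 := by
          have : ((algebraMap k A r : A) : E) = algebraMap k E r := rfl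
          rw [this, Derivation.map_algebraMap]
        rw [e3, smul_zero]
        exact A.zero_mem
      | add a b _ _ ha hb =>
        have e3 : (e1 * e2) • θ ((a + b : A) : E) =
            (e1 * e2) • θ (a : E) + (e1 * e2) • θ (b : E) := by
          rw [Subalgebra.coe_add, map_add, smul_add]
        rw [e3]
        exact A.add_mem ha hb
      | mul a b _ _ ha hb =>
        have e3 : (e1 * e2) • θ ((a * b : A) : E) =
            a * ((e1 * e2) • θ (b : E)) + b * ((e1 * e2) • θ (a : E)) := by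
          rw [Subalgebra.coe_mul, Derivation.leibniz]
          simp only [smul_eq_mul]
          ring
        rw [e3]
        exact A.add_mem (A.mul_mem a.2 hb) (A.mul_mem b.2 ha)
    intro a ha
    have h1 := key ⟨a, ha⟩ (by rw [hS]; trivial)
    exact h1
  · intro i
    refine ⟨e1 * (e2 * w i), A.mul_mem he1 (hd2 i (Finset.mem_univ i)), ?_⟩
    change (e1 * e2) • θ (x i) = _
    rw [hwx, smul_eq_mul]
    ring

/-- derivations of a subalgebra preserve localizations -/
lemma der_frac {A W : Subalgebra k E} (h : Fr A W) {θ : Derivation k E E}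
    (hθ : ∀ a ∈ A, θ a ∈ W) {a : E} (ha : a ∈ W) : θ a ∈ W := by
  obtain ⟨c, hc, b, hb, hb0, hbi, rfl⟩ := h.2 a ha
  have h1 : θ (c * b⁻¹) = b⁻¹ * θ c - c * b⁻¹ * b⁻¹ * θ b := by
    rw [Derivation.leibniz, Derivation.leibniz_inv]
    simp only [smul_eq_mul]
    field_simp
    ring
  rw [h1]
  exact W.sub_mem (W.mul_mem hbi (hθ c hc))
    (W.mul_mem (W.mul_mem (W.mul_mem (h.1 hc) hbi) hbi) (hθ b hb))

lemma ThW.mono {A O W : Subalgebra k E} (h : Fr A W) (hAO : A ≤ O) (hOW : O ≤ W) {I : Type}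
    {x : I → E} {θ : Derivation k E E} (hθ : θ ∈ ThW O x) : θ ∈ ThW W x := by
  refine ⟨fun a ha => der_frac h (fun a ha => hOW (hθ.1 a (hAO ha))) ha, fun i => ?_⟩
  obtain ⟨w, hw, h1⟩ := hθ.2 i
  exact ⟨w, hOW hw, h1⟩

/-- change of the equations by units -/
lemma ThW.change {W : Subalgebra k E} {I : Type} {x y : I → E} (hx0 : ∀ i, x i ≠ 0)
    (hxy : ∀ i, y i / x i ∈ W) (hyx : ∀ i, x i / y i ∈ W)
    {θ : Derivation k E E} (hθ : θ ∈ ThW W x) : θ ∈ ThW W y := by
  refine ⟨hθ.1, fun i => ?_⟩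
  obtain ⟨w, hw, h1⟩ := hθ.2 i
  by_cases hy0 : y i = 0
  · exact ⟨0, W.zero_mem, by rw [hy0, map_zero, mul_zero]⟩
  · have h2 : y i = (y i / x i) * x i := by
      have := hx0 i
      field_simp
    refine ⟨θ (y i / x i) * (x i / y i) + w,
      W.add_mem (W.mul_mem (hθ.1 _ (hxy i)) (hyx i)) hw, ?_⟩
    have h3 : θ (y i) = (y i / x i) * θ (x i) + x i * θ (y i / x i) := by
      conv_lhs => rw [h2]
      rw [Derivation.leibniz]
      simp only [smul_eq_mul]
    rw [h3, h1]
    have := hx0 i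
    field_simp
    ring

/-- `θ` is a generator -/
def Good (W : Subalgebra k E) {I : Type} (x : I → E) (f : E) (θ : Derivation k E E) : Prop :=
  θ ∈ ThW W x ∧ θ f ≠ 0 ∧ ∀ θ' ∈ ThW W x, θ' f / θ f ∈ W

lemma Good.change {W : Subalgebra k E} {I : Type} {x y : I → E} (hx0 : ∀ i, x i ≠ 0)
    (hy0 : ∀ i, y i ≠ 0)
    (hxy : ∀ i, y i / x i ∈ W) (hyx : ∀ i, x i / y i ∈ W) {f : E}
    {θ : Derivation k E E} (hθ : Good W x f θ) : Good W y f θ :=
  ⟨ThW.change hx0 hxy hyx hθ.1, hθ.2.1, fun θ' hθ' =>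
    hθ.2.2 θ' (ThW.change hy0 hyx hxy hθ')⟩

lemma Good.up {A O W : Subalgebra k E} [Algebra.FiniteType k A] (hW : Fr A W) (hO : Fr A O)
    (hOW : O ≤ W) {I : Type} [Finite I] {x : I → E} {f : E} {θ : Derivation k E E}
    (hθ : Good O x f θ) : Good W x f θ := by
  refine ⟨ThW.mono hW hO.1 hOW hθ.1, hθ.2.1, fun θ' hθ' => ?_⟩
  obtain ⟨e, he, he0, hei, h1⟩ := spread hW hθ'
  have h2 : e • θ' ∈ ThW O x := ThW.mono hO le_rfl hO.1 h1
  have h3 := hθ.2.2 _ h2
  have h4 : θ' f / θ f = e⁻¹ * ((e • θ') f / θ f) := by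
    change _ = e⁻¹ * ((e • θ' f) / θ f)
    rw [smul_eq_mul]
    field_simp
  rw [h4]
  exact W.mul_mem hei (hOW h3)

/-- two generators differ by a unit -/
lemma Good.ratio {W : Subalgebra k E} {I : Type} {x : I → E} {f : E} {θ θ' : Derivation k E E}
    (h : Good W x f θ) (h' : Good W x f θ') : θ' f / θ f ∈ W := h.2.2 θ' h'.1

end basic

end Pool.Agent.W902.WD
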