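import Pool.Agent.W902.WD.LocA

/-!
# WILD-LOC, part B: the exponents
-/

set_option autoImplicit false
set_option linter.unusedVariables false
set_option linter.unusedSectionVars false

universe u

open Polynomial

namespace Pool.Agent.W902.WD

open Pool.Agent.W558

section

variable {k E : Type u} [Field k] [Field E] [Algebra k E]

lemma Th_iff {T I : Type} (M : LM (⊥ : Subalgebra k E) ⊤ T I) {O : Subalgebra k E} {t : T}
    (ht : M.A t ≤ O) (θ : Derivation k E E) : θ ∈ Th O (bdy M O) ↔ θ ∈ ThW O (M.x t) := by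
  constructor
  · rintro ⟨h1, h2⟩
    refine ⟨h1, fun i => ?_⟩
    by_cases hi : NU O (M.x t i)
    · refine h2 _ ⟨t, i, ht, hi, 1, O.one_mem, one_ne_zero, ?_, ?_⟩
      · rw [inv_one]
        exact O.one_mem
      · rw [one_mul]
    · have h3 := (not_NU_iff (ht (M.xA t i))).1 hi
      refine ⟨θ (M.x t i) * (M.x t i)⁻¹, O.mul_mem (h1 _ (ht (M.xA t i))) h3.2, ?_⟩
      rw [inv_mul_cancel_right₀ h3.1]
  · rintro ⟨h1, h2⟩
    refine ⟨h1, ?_⟩
    rintro z ⟨t', i, ht', hi, w, hw, hw0, hwi, rfl⟩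
    have h3 : θ ∈ ThW O (M.x t') := ThW.change (M.x0 t) (fun i => M.ratio ht ht' i)
      (fun i => M.ratio ht' ht i) ⟨h1, h2⟩
    obtain ⟨c, hc, h4⟩ := h3.2 i
    refine ⟨θ w * w⁻¹ + c, O.add_mem (O.mul_mem (h1 _ hw) hwi) hc, ?_⟩
    rw [Derivation.leibniz, h4]
    simp only [smul_eq_mul]
    field_simp
    ring

lemma exists_good {T I : Type} (M : LM (⊥ : Subalgebra k E) ⊤ T I) {O : Subalgebra k E} {t : T}
    (ht : M.A t ≤ O) {f : E} (h : Gd O (bdy M O) f) : ∃ θ, Good O (M.x t) f θ := by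
  obtain ⟨θ, h1, h2, h3⟩ := h
  exact ⟨θ, (Th_iff M ht θ).1 h1, h2, fun θ' hθ' => h3 θ' ((Th_iff M ht θ').2 hθ')⟩

/-- the local ring of a point on a component is contained in the local ring of the component -/
lemma pt_le {A O W : Subalgebra k E} (hO : IsPt A O) {x : E}
    (hp : ∀ a ∈ A, NU W a → ∃ b ∈ A, a = x * b) (hW : A ≤ W) (hx : NU O x) : O ≤ W := by
  intro z hz
  obtain ⟨a, ha, b, hb, hb0, hbi, rfl⟩ := hO.frac z hz
  have h1 : ¬ NU W b := by
    intro h
    obtain ⟨c, hc, rfl⟩ := hp b hb h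
    exact not_NU_of_inv hb0 hbi (hx.mul_right (hO.le hc))
  exact W.mul_mem (hW ha) ((not_NU_iff (hW hb)).1 h1).2

lemma irr_of_NU (s : SM k E) {t : s.T} {i : s.I} {O : Subalgebra k E} (hO : s.M.A t ≤ O)
    (hx : NU O (s.M.x t i)) : IsDv (s.M.A t) (s.W i) ∧ NU (s.W i) (s.M.x t i) ∧
    ∀ a ∈ s.M.A t, NU (s.W i) a → ∃ b ∈ s.M.A t, a = s.M.x t i * b := by
  rcases s.irr t i with h | h
  · exact absurd hx (not_NU_of_inv (s.M.x0 t i) (hO h))
  · exact h

/-- the exponents of the components of the boundary -/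
lemma exists_n (s : SM k E) (f : E)
    (hgd : ∀ t O, IsPt (s.M.A t) O → ∃ θ, Good O (s.M.x t) f θ) :
    ∃ n : s.I → ℤ, ∀ i t O θ, IsPt (s.M.A t) O → NU O (s.M.x t i) →
      Good O (s.M.x t) f θ → θ f * s.M.x t i ^ (-n i) ∈ s.W i ∧
        (θ f * s.M.x t i ^ (-n i))⁻¹ ∈ s.W i := by
  have key : ∀ i, ∃ n : ℤ, ∀ t O θ, IsPt (s.M.A t) O → NU O (s.M.x t i) →
      Good O (s.M.x t) f θ → θ f * s.M.x t i ^ (-n) ∈ s.W i ∧
        (θ f * s.M.x t i ^ (-n))⁻¹ ∈ s.W i := by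
    intro i
    by_cases h : ∃ t O, IsPt (s.M.A t) O ∧ NU O (s.M.x t i)
    · obtain ⟨t0, O0, hO0, hx0⟩ := h
      obtain ⟨θ0, hθ0⟩ := hgd t0 O0 hO0
      obtain ⟨hd, hnu, hp⟩ := irr_of_NU s hO0.le hx0
      obtain ⟨n, h4, h5⟩ := Pool.Agent.W440.RS.exists_exp (s.sf t0) hd.le (s.M.xA t0 i)
        (s.M.x0 t0 i) hnu hp hθ0.2.1
      refine ⟨n, ?_⟩
      intro t O θ hO hx hθ
      obtain ⟨hd', hnu', hp'⟩ := irr_of_NU s hO.le hx
      have hsm0 := (s.sf t0).sm
      have hsm := (s.sf t).sm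
      have g0 : Good (s.W i) (s.M.x t0) f θ0 :=
        Good.up hd.fr' hO0.fr' (pt_le hO0 hp hd.le hx0) hθ0
      have g1 : Good (s.W i) (s.M.x t) f θ :=
        Good.up hd'.fr' hO.fr' (pt_le hO hp' hd'.le hx) hθ
      have g2 : Good (s.W i) (s.M.x t0) f θ := Good.change (s.M.x0 t) (s.M.x0 t0)
        (fun i => s.M.ratio hd'.le hd.le i) (fun i => s.M.ratio hd.le hd'.le i) g1
      have r1 := g0.ratio g2
      have r2 := g2.ratio g0
      have h6 := s.M.ratio hd.le hd'.le i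
      have h7 := s.M.ratio hd'.le hd.le i
      have hx0 := s.M.x0 t0 i
      have hx0' := s.M.x0 t i
      have e : θ f * s.M.x t i ^ (-n) = θ0 f * s.M.x t0 i ^ (-n) * (θ f / θ0 f) *
          (s.M.x t i / s.M.x t0 i) ^ (-n) := by
        have e1 : s.M.x t i ^ (-n) = s.M.x t0 i ^ (-n) * (s.M.x t i / s.M.x t0 i) ^ (-n) := by
          rw [← mul_zpow, mul_div_cancel₀ _ hx0]
        rw [e1]
        have := hθ0.2.1
        field_simp
      have h8 : (s.M.x t i / s.M.x t0 i) ^ (-n) ∈ s.W i :=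
        zpow_mem_of h6 (Or.inr (by rw [inv_div]; exact h7))
      have h9 : ((s.M.x t i / s.M.x t0 i) ^ (-n))⁻¹ ∈ s.W i := by
        rw [← zpow_neg]
        exact zpow_mem_of h6 (Or.inr (by rw [inv_div]; exact h7))
      rw [e]
      refine ⟨(s.W i).mul_mem ((s.W i).mul_mem h4 r1) h8, ?_⟩
      rw [mul_inv, mul_inv]
      refine (s.W i).mul_mem ((s.W i).mul_mem h5 ?_) h9
      rw [inv_div]
      exact r2
    · exact ⟨0, fun t O θ hO hx => absurd ⟨t, O, hO, hx⟩ h⟩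
  choose n hn using key
  exact ⟨n, hn⟩

lemma noeth {A O : Subalgebra k E} [Algebra.FiniteType k A] (hO : Fr A O) :
    IsNoetherianRing O := by
  have hN : IsNoetherianRing A := Algebra.FiniteType.isNoetherianRing k A
  rw [isNoetherianRing_iff_ideal_fg]
  intro J
  let ι : A →+* O := (Subalgebra.inclusion hO.1).toRingHom
  have h1 : J = (J.comap ι).map ι := by
    refine le_antisymm ?_ Ideal.map_comap_le
    intro z hz
    obtain ⟨a, ha, b, hb, hb0, hbi, hab⟩ := hO.2 z z.2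
    have h2 : ι ⟨a, ha⟩ = z * ι ⟨b, hb⟩ := by
      apply Subtype.ext
      change a = z * b
      rw [hab, inv_mul_cancel_right₀ hb0]
    have h3 : (⟨a, ha⟩ : A) ∈ J.comap ι := by
      rw [Ideal.mem_comap, h2]
      exact J.mul_mem_right _ hz
    have h4 : z = ι ⟨a, ha⟩ * ⟨b⁻¹, hbi⟩ := Subtype.ext hab
    rw [h4]
    exact Ideal.mul_mem_right _ _ (Ideal.mem_map_of_mem ι h3)
  rw [h1]
  exact Ideal.FG.map ((isNoetherianRing_iff_ideal_fg A).1 hN _) ι

/-- A function which is regular along all curves through the point is regular at the point. -/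
lemma hartogs (hpar : S_par.{u}) (hfin : S_fin.{u}) [PerfectField k]
    (htr : Algebra.trdeg k E = 2) {A O : Subalgebra k E} (hA : Sf A) (hO : IsPt A O) {w : E}
    (hw : ∀ V, IsDv A V → O ≤ V → w ∈ V) : w ∈ O := by
  have hsm := hA.sm
  have hft : Algebra.FiniteType k A := inferInstance
  have hNO : IsNoetherianRing O := noeth hO.fr'
  by_contra hcon
  obtain ⟨a, ha, b, hb, hb0, hwab⟩ := hA.fr w
  have hba : w * b = a := by rw [hwab]; field_simp
  have hnd : ¬ (⟨b, hO.le hb⟩ : O) ∣ ⟨a, hO.le ha⟩ := by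
    rintro ⟨c, hc⟩
    apply hcon
    have h3 : a = b * c := congrArg Subtype.val hc
    have h4 : w = c := by
      rw [hwab, h3]; field_simp
    rw [h4]
    exact c.2
  obtain ⟨P, c, hP, hPc, hPa⟩ := Pool.Agent.W440.RS.exists_prime_colon hnd
  have hbP : (⟨b, hO.le hb⟩ : O) ∈ P := by
    rw [hPc]
    exact dvd_mul_right _ _
  have hunit : ∀ z : O, z ≠ 0 → (z : E)⁻¹ ∈ O → z ∉ P := by
    intro z hz0 hzi hzP
    apply hP.ne_top
    rw [Ideal.eq_top_iff_one]
    have h1 : (1 : O) = z * ⟨(z : E)⁻¹, hzi⟩ := by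
      apply Subtype.ext
      change (1 : E) = z * (z : E)⁻¹
      rw [mul_inv_cancel₀]
      exact fun h => hz0 (Subtype.ext h)
    rw [h1]
    exact P.mul_mem_right _ hzP
  by_cases hm : ∀ z : O, NU O (z : E) → z ∈ P
  · obtain ⟨u, v, -, hu, hv, -, -, -, hp, -, -⟩ := hpar k E htr A O hA hO
    have huP : (⟨u, hO.le hu⟩ : O) ∈ P := hm _ hp.pu
    have hvP : (⟨v, hO.le hv⟩ : O) ∈ P := hm _ hp.pv
    obtain ⟨α, hα⟩ := (hPc _).1 huP
    obtain ⟨β, hβ⟩ := (hPc _).1 hvP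
    have hα' : u * c = b * α := congrArg Subtype.val hα
    have hβ' : v * c = b * β := congrArg Subtype.val hβ
    have h3 : u * (β : E) = v * α := by
      apply mul_left_cancel₀ hb0
      calc b * (u * (β : E)) = u * (b * β) := by ring
        _ = u * (v * c) := by rw [hβ']
        _ = v * (u * c) := by ring
        _ = v * (b * α) := by rw [hα']
        _ = b * (v * α) := by ring
    obtain ⟨d, hd, h4⟩ := hp.reg β β.2 α α.2 h3
    have h5 : (c : E) = b * d := by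
      apply mul_left_cancel₀ hp.u0
      rw [hα', h4]; ring
    apply hP.ne_top
    rw [Ideal.eq_top_iff_one, hPc]
    refine ⟨⟨d, hd⟩, Subtype.ext ?_⟩
    change (1 : E) * c = b * d
    rw [h5, one_mul]
  · push Not at hm
    obtain ⟨z, hz, hzP⟩ := hm
    let ι : A →+* O := (Subalgebra.inclusion hO.le).toRingHom
    let Q : Ideal A := P.comap ι
    have hQ : Q.IsPrime := Ideal.IsPrime.comap ι
    have hQ0 : Q ≠ ⊥ := by
      intro h
      have h1 : (⟨b, hb⟩ : A) ∈ Q := hbP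
      rw [h, Ideal.mem_bot] at h1
      exact hb0 (congrArg Subtype.val h1)
    have hQm : ¬ Q.IsMaximal := by
      intro h
      have h1 : Q ≤ hO.mx := by
        intro x hx
        rw [hO.mem_mx]
        by_contra hn
        have h2 := (not_NU_iff (hO.le x.2)).1 hn
        exact hunit (ι x) (fun h0 => h2.1 (congrArg Subtype.val h0)) h2.2 hx
      have h2 : Q = hO.mx := h.eq_of_le hO.isMaximal.ne_top h1
      obtain ⟨c', hc', d', hd', hd0, hdi, hzcd⟩ := hO.frac z z.2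
      have h3 : NU O c' := by
        have := hz.mul_right (hO.le hd')
        rwa [hzcd, inv_mul_cancel_right₀ hd0] at this
      have h4 : (⟨c', hc'⟩ : A) ∈ Q := by
        rw [h2]
        exact h3
      apply hzP
      have h5 : z = ι ⟨c', hc'⟩ * ⟨d'⁻¹, hdi⟩ := Subtype.ext hzcd
      rw [h5]
      exact P.mul_mem_right _ h4
    have hDv := (hfin k E htr A hA).2.2.1 Q hQ hQ0 hQm
    have hOV : O ≤ locAt A Q hQ := by
      intro y hy
      obtain ⟨c', hc', d', hd', hd0, hdi, rfl⟩ := hO.frac y hy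
      refine ⟨⟨c', hc'⟩, ⟨d', hd'⟩, ?_, ?_⟩
      · exact hunit (ι ⟨d', hd'⟩) (fun h0 => hd0 (congrArg Subtype.val h0)) hdi
      · change c' * d'⁻¹ * d' = c'
        rw [inv_mul_cancel_right₀ hd0]
    obtain ⟨r, s, hs, h3⟩ := hw _ hDv hOV
    apply hs
    apply hPa
    refine ⟨ι r, Subtype.ext ?_⟩
    change (s : E) * a = b * r
    rw [← hba, ← h3]; ring

/-- The function `θ f` is a monomial times a unit. -/
lemma unit_pt (hpar : S_par.{u}) (hfin : S_fin.{u}) [PerfectField k]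
    (htr : Algebra.trdeg k E = 2) (s : SM k E) (f : E) (hCO : CO s f) (n : s.I → ℤ)
    (hn : ∀ i t O θ, IsPt (s.M.A t) O → NU O (s.M.x t i) →
      Good O (s.M.x t) f θ → θ f * s.M.x t i ^ (-n i) ∈ s.W i ∧
        (θ f * s.M.x t i ^ (-n i))⁻¹ ∈ s.W i)
    {t : s.T} {O : Subalgebra k E} (hO : IsPt (s.M.A t) O) {θ : Derivation k E E}
    (hθ : Good O (s.M.x t) f θ) :
    θ f * ∏ i, s.M.x t i ^ (-n i) ∈ O ∧ (θ f * ∏ i, s.M.x t i ^ (-n i))⁻¹ ∈ O := by
  classical
  set w := θ f * ∏ i, s.M.x t i ^ (-n i) with hw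
  have hsm := (s.sf t).sm
  have key : ∀ V, IsDv (s.M.A t) V → O ≤ V → w ∈ V ∧ w⁻¹ ∈ V := by
    intro V hV hOV
    have hprod : ∀ (F : Finset s.I), (∀ j ∈ F, ¬ NU V (s.M.x t j)) →
        ∏ j ∈ F, s.M.x t j ^ (-n j) ∈ V ∧ (∏ j ∈ F, s.M.x t j ^ (-n j))⁻¹ ∈ V := by
      intro F hF
      constructor
      · refine V.prod_mem fun j hj => ?_
        exact zpow_mem_of (hV.le (s.M.xA t j))
          (Or.inr (Pool.Agent.W440.RS.inv_mem_of_not_NU (hV.le (s.M.xA t j)) (hF j hj)))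
      · rw [← Finset.prod_inv_distrib]
        refine V.prod_mem fun j hj => ?_
        rw [← zpow_neg]
        exact zpow_mem_of (hV.le (s.M.xA t j))
          (Or.inr (Pool.Agent.W440.RS.inv_mem_of_not_NU (hV.le (s.M.xA t j)) (hF j hj)))
    by_cases hex : ∃ i, NU V (s.M.x t i)
    · obtain ⟨i, hi⟩ := hex
      have hcomp : ∀ j, NU V (s.M.x t j) → IsDv (s.M.A t) (s.W j) ∧ NU (s.W j) (s.M.x t j) ∧
          (∀ a ∈ s.M.A t, NU (s.W j) a → ∃ b ∈ s.M.A t, a = s.M.x t j * b) ∧ s.W j = V := by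
        intro j hj
        obtain ⟨h3, h4, h5⟩ := irr_of_NU s hV.le hj
        refine ⟨h3, h4, h5, (hfin k E htr _ (s.sf t)).2.2.2 _ _ h3 hV ?_⟩
        intro a ha hna
        obtain ⟨b, hb, rfl⟩ := h5 a ha hna
        exact hj.mul_right (hV.le hb)
      obtain ⟨h3, h4, h5, h6⟩ := hcomp i hi
      have hother : ∀ j, j ≠ i → ¬ NU V (s.M.x t j) := by
        intro j hj hn
        obtain ⟨h3', h4', h5', h6'⟩ := hcomp j hn
        obtain ⟨c, hc, h7⟩ := h5 (s.M.x t j) (s.M.xA t j) (by rw [h6]; exact hn)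
        have hl := isLocalRing_of_loc hV.loc
        let L := IsLocalRing.ResidueField V
        let φ : s.M.A t →ₐ[k] L :=
          (IsScalarTower.toAlgHom k V L).comp (Subalgebra.inclusion hV.le)
        have hφ : ∀ a : s.M.A t, φ a = 0 ↔ NU V a := fun a => by
          change IsLocalRing.residue V ⟨a, hV.le a.2⟩ = 0 ↔ _
          rw [residue_eq_zero_NU]
        obtain ⟨D, hD1, hD2⟩ := s.M.snc t L φ j (s.M.xA t j) ((hφ _).2 hn)
        have hD3 := hD2 i (s.M.xA t i) hj.symm ((hφ _).2 hi)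
        have h8 : (⟨s.M.x t j, s.M.xA t j⟩ : s.M.A t) = ⟨s.M.x t i, s.M.xA t i⟩ * ⟨c, hc⟩ :=
          Subtype.ext h7
        rw [h8, D.leib, hD3, (hφ ⟨s.M.x t i, s.M.xA t i⟩).2 hi, zero_mul, mul_zero,
          add_zero] at hD1
        exact zero_ne_one hD1
      have hiO : NU O (s.M.x t i) := hi.of_le hOV (hO.le (s.M.xA t i))
      have h7 := hn i t O θ hO hiO hθ
      rw [h6] at h7
      have h8 : w = θ f * s.M.x t i ^ (-n i) *
          ∏ j ∈ Finset.univ.erase i, s.M.x t j ^ (-n j) := by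
        rw [hw, mul_assoc, Finset.mul_prod_erase Finset.univ (fun j => s.M.x t j ^ (-n j))
          (Finset.mem_univ i)]
      obtain ⟨h9, h10⟩ := hprod (Finset.univ.erase i) fun j hj =>
        hother j (Finset.ne_of_mem_erase hj)
      rw [h8]
      refine ⟨V.mul_mem h7.1 h9, ?_⟩
      rw [mul_inv]
      exact V.mul_mem h7.2 h10
    · push Not at hex
      obtain ⟨h9, h10⟩ := hprod Finset.univ fun j _ => hex j
      have hgV : Good V (s.M.x t) f θ := Good.up hV.fr' hO.fr' hOV hθ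
      rcases hCO V ⟨t, hV⟩ with ⟨t', i, h1, h2⟩ | ⟨hfV, D, hDV, hDf0, hDf, hDfi⟩
      · exact absurd ((s.M.nu_iff hV.le h1.le i).2 h2) (hex i)
      · have hDT : D ∈ ThW V (s.M.x t) := by
          refine ⟨hDV, fun i => ?_⟩
          have h3 := (not_NU_iff (hV.le (s.M.xA t i))).1 (hex i)
          refine ⟨D (s.M.x t i) * (s.M.x t i)⁻¹,
            V.mul_mem (hDV _ (hV.le (s.M.xA t i))) h3.2, ?_⟩
          rw [inv_mul_cancel_right₀ h3.1]
        have h3 : D f / θ f ∈ V := hgV.2.2 D hDT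
        have h4 : θ f ∈ V := hgV.1.1 f hfV
        have h5 : (θ f)⁻¹ ∈ V := by
          have h6 : (θ f)⁻¹ = (D f / θ f) * (D f)⁻¹ := by
            field_simp
          rw [h6]
          exact V.mul_mem h3 hDfi
        refine ⟨V.mul_mem h4 h9, ?_⟩
        rw [hw, mul_inv]
        exact V.mul_mem h5 h10
  exact ⟨hartogs hpar hfin htr (s.sf t) hO fun V h1 h2 => (key V h1 h2).1,
    hartogs hpar hfin htr (s.sf t) hO fun V h1 h2 => (key V h1 h2).2⟩

end

end Pool.Agent.W902.WD
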