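import Pool.Agent.W902.WD.LocB

/-!
# WILD-LOC, part C: the normal form at a point
-/

set_option autoImplicit false
set_option linter.unusedVariables false
set_option linter.unusedSectionVars false

universe u

open Polynomial

namespace Pool.Agent.W902.WD

open Pool.Agent.W558

section

variable {k E : Type u} [Field k] [Field E] [Algebra k E]

lemma log_zpow (D : Derivation k E E) {x w : E} (hx : x ≠ 0) (h : D x = w * x) (n : ℤ) :
    D (x ^ n) = (n : E) * w * x ^ n := by
  have hnat : ∀ m : ℕ, D (x ^ m) = (m : E) * w * x ^ m := by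
    intro m
    induction m with
    | zero => simp
    | succ m ih =>
      rw [pow_succ, Derivation.leibniz, ih, h]
      simp only [smul_eq_mul]
      push_cast
      ring
  obtain ⟨m, rfl | rfl⟩ := n.eq_nat_or_neg
  · rw [zpow_natCast, hnat]
    push_cast
    rfl
  · rw [zpow_neg, zpow_natCast, Derivation.leibniz_inv, hnat]
    have := pow_ne_zero m hx
    simp only [smul_eq_mul]
    push_cast
    field_simp

lemma log_prod (D : Derivation k E E) {I : Type*} (s : Finset I) (y w : I → E)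
    (h : ∀ i ∈ s, D (y i) = w i * y i) : D (∏ i ∈ s, y i) = (∑ i ∈ s, w i) * ∏ i ∈ s, y i := by
  classical
  induction s using Finset.induction_on with
  | empty => simp
  | insert i s his ih =>
    rw [Finset.prod_insert his, Finset.sum_insert his, Derivation.leibniz,
      ih fun j hj => h j (Finset.mem_insert_of_mem hj), h i (Finset.mem_insert_self i s)]
    simp only [smul_eq_mul]
    ring

/-- the monomial -/
lemma log_mono (D : Derivation k E E) {I : Type} [Fintype I] {x w : I → E} (hx : ∀ i, x i ≠ 0)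
    (h : ∀ i, D (x i) = w i * x i) (n : I → ℤ) :
    D (∏ i, x i ^ n i) = (∑ i, (n i : E) * w i) * ∏ i, x i ^ n i :=
  log_prod D Finset.univ _ _ fun i _ => log_zpow D (hx i) (h i) (n i)

lemma mono_mul {I : Type} [Fintype I] {x : I → E} (hx : ∀ i, x i ≠ 0) (n : I → ℤ) :
    (∏ i, x i ^ n i) * ∏ i, x i ^ (-n i) = 1 := by
  rw [← Finset.prod_mul_distrib]
  refine Finset.prod_eq_one fun i _ => ?_
  rw [← zpow_add₀ (hx i), add_neg_cancel, zpow_zero]

/-- logarithmic derivations preserve the fractional ideal generated by a monomial -/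
lemma log_ideal {W : Subalgebra k E} {I : Type} [Fintype I] {x : I → E} (hx : ∀ i, x i ≠ 0)
    (n : I → ℤ) {D : Derivation k E E} (hD : D ∈ ThW W x) {z : E}
    (hz : z * ∏ i, x i ^ (-n i) ∈ W) : D z * ∏ i, x i ^ (-n i) ∈ W := by
  choose w hw hwx using hD.2
  have h1 := hD.1 _ hz
  have h2 := log_mono D hx hwx (fun i => -n i)
  rw [Derivation.leibniz, h2] at h1
  simp only [smul_eq_mul] at h1
  have h3 : ∑ i, (((-n i : ℤ)) : E) * w i ∈ W := by
    refine W.sum_mem fun i _ => W.mul_mem ?_ (hw i)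
    exact intCast_mem W _
  have h4 : D z * ∏ i, x i ^ (-n i) =
      (z * ((∑ i, (((-n i : ℤ)) : E) * w i) * ∏ i, x i ^ (-n i)) +
        (∏ i, x i ^ (-n i)) * D z) -
      (∑ i, (((-n i : ℤ)) : E) * w i) * (z * ∏ i, x i ^ (-n i)) := by ring
  rw [h4]
  exact W.sub_mem h1 (W.mul_mem h3 hz)

lemma iter_ideal {W : Subalgebra k E} {I : Type} [Fintype I] {x : I → E} (hx : ∀ i, x i ≠ 0)
    (n : I → ℤ) {D : Derivation k E E} (hD : D ∈ ThW W x) {z : E}
    (hz : z * ∏ i, x i ^ (-n i) ∈ W) (q : ℕ) : D^[q] z * ∏ i, x i ^ (-n i) ∈ W := by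
  induction q with
  | zero => exact hz
  | succ q ih =>
    rw [Function.iterate_succ_apply']
    exact log_ideal hx n hD ih

lemma uo_log {O : Subalgebra k E} {x c : E} {D : Derivation k E E} (hD : ∀ a ∈ O, D a ∈ O)
    (hc : c ∈ O) (h : D x = c * x) : ∀ z ∈ uo O x, ∃ w ∈ O, D z = w * z := by
  rintro z ⟨w, hw, hw0, hwi, rfl⟩
  refine ⟨D w * w⁻¹ + c, O.add_mem (O.mul_mem (hD w hw) hwi) hc, ?_⟩
  rw [Derivation.leibniz, h]
  simp only [smul_eq_mul]
  field_simp
  ring

/-- multiples of the dual derivations which are logarithmic and idempotent -/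
lemma exists_log {O : Subalgebra k E} {b : Set E} {x y : E} (hpar : Par O x y)
    (hb : b = ∅ ∨ b = uo O x ∨ b = uo O x ∪ uo O y) {D1 D2 : Derivation k E E}
    (h1 : ∀ a ∈ O, D1 a ∈ O) (h2 : ∀ a ∈ O, D2 a ∈ O) (e11 : D1 x = 1) (e12 : D1 y = 0)
    (e21 : D2 x = 0) (e22 : D2 y = 1) :
    ∃ u1 u2 : E, u1 ≠ 0 ∧ u2 ≠ 0 ∧ D1 u1 = 1 ∧ D2 u1 = 0 ∧ D1 u2 = 0 ∧ D2 u2 = 1 ∧
      u1 • D1 ∈ Th O b ∧ u2 • D2 ∈ Th O b := by
  have hone : ∀ z, NU O z → 1 + z ≠ 0 := by
    intro z hz h0
    have h3 : z = -1 := by linear_combination h0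
    rw [h3] at hz
    exact hz.2 (-1) (O.neg_mem O.one_mem) (by ring)
  have hx1 := hone x hpar.pu
  have hy1 := hone y hpar.pv
  have hxO := hpar.pu.mem
  have hyO := hpar.pv.mem
  have hmem : ∀ (u : E) (D : Derivation k E E), u ∈ O → (∀ a ∈ O, D a ∈ O) →
      ∀ a ∈ O, (u • D) a ∈ O := fun u D hu hD a ha => O.mul_mem hu (hD a ha)
  have hap : ∀ (u : E) (D : Derivation k E E) (a : E), (u • D) a = u * D a := fun u D a => rfl
  have d1 : D1 (1 + x) = 1 := by rw [map_add, Derivation.map_one_eq_zero, e11, zero_add]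
  have d2 : D2 (1 + x) = 0 := by rw [map_add, Derivation.map_one_eq_zero, e21, zero_add]
  have d3 : D1 (1 + y) = 0 := by rw [map_add, Derivation.map_one_eq_zero, e12, zero_add]
  have d4 : D2 (1 + y) = 1 := by rw [map_add, Derivation.map_one_eq_zero, e22, zero_add]
  rcases hb with rfl | rfl | rfl
  · refine ⟨1 + x, 1 + y, hx1, hy1, d1, d2, d3, d4, ⟨?_, ?_⟩, ⟨?_, ?_⟩⟩
    · exact hmem _ _ (O.add_mem O.one_mem hxO) h1
    · intro z hz; exact absurd hz (Set.notMem_empty z)
    · exact hmem _ _ (O.add_mem O.one_mem hyO) h2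
    · intro z hz; exact absurd hz (Set.notMem_empty z)
  · refine ⟨x, 1 + y, hpar.u0, hy1, e11, e21, d3, d4, ⟨?_, ?_⟩, ⟨?_, ?_⟩⟩
    · exact hmem _ _ hxO h1
    · exact uo_log (hmem _ _ hxO h1) O.one_mem (by rw [hap, e11, mul_one, one_mul])
    · exact hmem _ _ (O.add_mem O.one_mem hyO) h2
    · exact uo_log (hmem _ _ (O.add_mem O.one_mem hyO) h2) O.zero_mem
        (by rw [hap, e21, mul_zero, zero_mul])
  · refine ⟨x, y, hpar.u0, hpar.v0, e11, e21, e12, e22, ⟨?_, ?_⟩, ⟨?_, ?_⟩⟩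
    · exact hmem _ _ hxO h1
    · rintro z (hz | hz)
      · exact uo_log (hmem _ _ hxO h1) O.one_mem (by rw [hap, e11, mul_one, one_mul]) z hz
      · exact uo_log (hmem _ _ hxO h1) O.zero_mem (by rw [hap, e12, mul_zero, zero_mul]) z hz
    · exact hmem _ _ hyO h2
    · rintro z (hz | hz)
      · exact uo_log (hmem _ _ hyO h2) O.zero_mem (by rw [hap, e21, mul_zero, zero_mul]) z hz
      · exact uo_log (hmem _ _ hyO h2) O.one_mem (by rw [hap, e22, mul_one, one_mul]) z hz

/-- the normal form at a point -/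
theorem local_nf (hder : WD_der.{u}) (hderp : WD_derp.{u}) (hker : WD_ker.{u}) (p : ℕ)
    [Fact p.Prime] [PerfectField k] [CharP k p] [Algebra.EssFiniteType k E]
    (htr : Algebra.trdeg k E = 2) {O : Subalgebra k E} (hPt : Pt2 O) {b : Set E}
    (hTy : Ty O b) {I : Type} [Fintype I] {x : I → E} (hx0 : ∀ i, x i ≠ 0) (n : I → ℤ)
    (hTh : ∀ θ, θ ∈ Th O b ↔ θ ∈ ThW O x) {f : E} {θ : Derivation k E E}
    (hθ : Good O x f θ) (hu : θ f * ∏ i, x i ^ (-n i) ∈ O) :
    ∃ a h : E, h ∈ O ∧ f = a ^ p + (∏ i, x i ^ n i) * h := by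
  obtain ⟨X, Y, hpar, hb⟩ := hTy
  obtain ⟨D1, D2, h1, h2, e11, e12, e21, e22, hgen⟩ := hder k E htr O X Y hPt hpar
  obtain ⟨u1, u2, hu1, hu2, a11, a21, a12, a22, t1, t2⟩ := exists_log hpar hb h1 h2 e11 e12 e21 e22
  rw [hTh] at t1 t2
  set δ1 : Derivation k E E := u1 • D1 with hδ1
  set δ2 : Derivation k E E := u2 • D2 with hδ2
  have ap1 : ∀ a, δ1 a = u1 * D1 a := fun a => rfl
  have ap2 : ∀ a, δ2 a = u2 * D2 a := fun a => rfl
  have hp1 : 1 ≤ p := (Fact.out : p.Prime).one_le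
  obtain ⟨q, hq⟩ : ∃ q, p = q + 1 := ⟨p - 1, by omega⟩
  obtain ⟨q', hq'⟩ : ∃ q', q = q' + 1 := ⟨q - 1, by have := (Fact.out : p.Prime).two_le; omega⟩
  -- idempotence
  have i1 : ∀ a, δ1^[p] a = δ1 a := by
    obtain ⟨D', hD'⟩ := hderp p k E δ1
    have hX : D' X = u1 := by
      rw [hD', hq]
      have : ∀ m : ℕ, δ1^[m + 1] X = u1 := by
        intro m
        induction m with
        | zero =>
          rw [Function.iterate_succ_apply, Function.iterate_zero_apply, ap1, e11, mul_one]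
        | succ m ih => rw [Function.iterate_succ_apply', ih, ap1, a11, mul_one]
      exact this q
    have hY : D' Y = 0 := by
      rw [hD', hq]
      have : ∀ m : ℕ, δ1^[m + 1] Y = 0 := by
        intro m
        induction m with
        | zero =>
          rw [Function.iterate_succ_apply, Function.iterate_zero_apply, ap1, e12, mul_zero]
        | succ m ih => rw [Function.iterate_succ_apply', ih, map_zero]
      exact this q
    intro a
    rw [← hD']
    have h3 := hgen D'
    rw [hX, hY, zero_smul, add_zero] at h3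
    rw [h3]
  have i2 : ∀ a, δ2^[p] a = δ2 a := by
    obtain ⟨D', hD'⟩ := hderp p k E δ2
    have hY : D' Y = u2 := by
      rw [hD', hq]
      have : ∀ m : ℕ, δ2^[m + 1] Y = u2 := by
        intro m
        induction m with
        | zero =>
          rw [Function.iterate_succ_apply, Function.iterate_zero_apply, ap2, e22, mul_one]
        | succ m ih => rw [Function.iterate_succ_apply', ih, ap2, a22, mul_one]
      exact this q
    have hX : D' X = 0 := by
      rw [hD', hq]
      have : ∀ m : ℕ, δ2^[m + 1] X = 0 := by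
        intro m
        induction m with
        | zero =>
          rw [Function.iterate_succ_apply, Function.iterate_zero_apply, ap2, e21, mul_zero]
        | succ m ih => rw [Function.iterate_succ_apply', ih, map_zero]
      exact this q
    intro a
    rw [← hD']
    have h3 := hgen D'
    rw [hX, hY, zero_smul, zero_add] at h3
    rw [h3]
  -- commutation
  have hcomm : Function.Commute δ1 δ2 := by
    intro a
    have h3 : ⁅δ1, δ2⁆ = 0 := by
      rw [hgen ⁅δ1, δ2⁆, Derivation.commutator_apply, Derivation.commutator_apply]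
      have c1 : δ1 (δ2 X) - δ2 (δ1 X) = 0 := by
        rw [ap2 X, e21, mul_zero, map_zero, ap1 X, e11, mul_one, ap2, a21, mul_zero, sub_zero]
      have c2 : δ1 (δ2 Y) - δ2 (δ1 Y) = 0 := by
        rw [ap2 Y, e22, mul_one, ap1, a12, mul_zero, ap1 Y, e12, mul_zero, map_zero, sub_zero]
      rw [c1, c2, zero_smul, zero_smul, add_zero]
    have h4 : ⁅δ1, δ2⁆ a = 0 := by rw [h3]; rfl
    rw [Derivation.commutator_apply] at h4
    exact sub_eq_zero.1 h4
  set A : E := f - δ1^[q] f - δ2^[q] f + δ1^[q] (δ2^[q] f) with hA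
  have k1 : δ1 A = 0 := by
    rw [hA, map_add, map_sub, map_sub]
    have e1 : δ1 (δ1^[q] f) = δ1 f := by
      rw [← Function.iterate_succ_apply' (f := δ1), ← i1 f, hq]
    have e2 : δ1 (δ1^[q] (δ2^[q] f)) = δ1 (δ2^[q] f) := by
      rw [← Function.iterate_succ_apply' (f := δ1), ← i1 (δ2^[q] f), hq]
    rw [e1, e2]
    ring
  have k2 : δ2 A = 0 := by
    rw [hA, map_add, map_sub, map_sub]
    have e1 : δ2 (δ2^[q] f) = δ2 f := by
      rw [← Function.iterate_succ_apply' (f := δ2), ← i2 f, hq]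
    have hc : ∀ a, δ2 (δ1^[q] a) = δ1^[q] (δ2 a) := fun a => ((hcomm.iterate_left q) a).symm
    rw [e1, hc, hc, e1]
    ring
  obtain ⟨a, ha⟩ := hker p k E A (by
    intro D
    rw [hgen D]
    have d1 : D1 A = 0 := by
      rw [ap1] at k1
      exact (mul_eq_zero.1 k1).resolve_left hu1
    have d2 : D2 A = 0 := by
      rw [ap2] at k2
      exact (mul_eq_zero.1 k2).resolve_left hu2
    change D X • D1 A + D Y • D2 A = 0
    rw [d1, d2, smul_zero, smul_zero, add_zero])
  have hδf : ∀ δ ∈ ThW O x, δ f * ∏ i, x i ^ (-n i) ∈ O := by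
    intro δ hδ
    have h3 := hθ.2.2 δ hδ
    have h4 : δ f * ∏ i, x i ^ (-n i) = (δ f / θ f) * (θ f * ∏ i, x i ^ (-n i)) := by
      have := hθ.2.1
      field_simp
    rw [h4]
    exact O.mul_mem h3 hu
  have hit : ∀ δ ∈ ThW O x, δ^[q] f * ∏ i, x i ^ (-n i) ∈ O := by
    intro δ hδ
    rw [hq', Function.iterate_succ_apply]
    exact iter_ideal hx0 n hδ (hδf δ hδ) q'
  refine ⟨a, (f - A) * ∏ i, x i ^ (-n i), ?_, ?_⟩
  · have h3 : (f - A) * ∏ i, x i ^ (-n i) = δ1^[q] f * (∏ i, x i ^ (-n i)) +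
        δ2^[q] f * (∏ i, x i ^ (-n i)) - δ1^[q] (δ2^[q] f) * ∏ i, x i ^ (-n i) := by
      rw [hA]; ring
    rw [h3]
    exact O.sub_mem (O.add_mem (hit δ1 t1) (hit δ2 t2)) (iter_ideal hx0 n t1 (hit δ2 t2) q)
  · rw [ha]
    have h3 := mono_mul hx0 n
    linear_combination (-(f - A)) * h3

end

end Pool.Agent.W902.WD
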